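import Mathlib
import Pool.Agent.H50.G.S.H373R2.T3.Kl
namespace Pool.Agent.H373R2.T3
open Finset
open Pool.Agent.H469R2.NK (e norm_e e_add conj_e norm_sum_neg e_zero)

/-- bilinear forms by duality -/
lemma bilin {ι κ : Type*} (s : Finset ι) (t : Finset κ) (a : ι → ℂ) (b : κ → ℂ) (g : ι → κ → ℂ) (T : ℝ)
    (hT : ∀ l ∈ t, ∑ l' ∈ t, ‖∑ m ∈ s, g m l * (starRingEnd ℂ) (g m l')‖ ≤ T) :
    ‖∑ m ∈ s, ∑ l ∈ t, a m * b l * g m l‖ ^ 2 ≤ (∑ m ∈ s, ‖a m‖ ^ 2) * ((∑ l ∈ t, ‖b l‖ ^ 2) * T) := by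
  have h1 : ‖∑ m ∈ s, ∑ l ∈ t, a m * b l * g m l‖ ≤ ∑ m ∈ s, ‖a m‖ * ‖∑ l ∈ t, b l * g m l‖ := by
    refine (norm_sum_le _ _).trans (sum_le_sum fun m _ => ?_)
    rw [← norm_mul, mul_sum]
    apply le_of_eq
    congr 1
    apply sum_congr rfl; intro l _; ring
  have h2 : ‖∑ m ∈ s, ∑ l ∈ t, a m * b l * g m l‖ ^ 2 ≤ (∑ m ∈ s, ‖a m‖ ^ 2) * ∑ m ∈ s, ‖∑ l ∈ t, b l * g m l‖ ^ 2 :=
    (pow_le_pow_left₀ (norm_nonneg _) h1 2).trans (sum_mul_sq_le_sq_mul_sq _ _ _)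
  refine h2.trans ?_
  apply mul_le_mul_of_nonneg_left _ (sum_nonneg fun _ _ => by positivity)
  set G : κ → κ → ℂ := fun l l' => ∑ m ∈ s, g m l * (starRingEnd ℂ) (g m l') with hG
  have hGsymm : ∀ l l', ‖G l l'‖ = ‖G l' l‖ := by
    intro l l'
    have : G l' l = (starRingEnd ℂ) (G l l') := by
      simp only [hG]
      rw [map_sum]
      apply sum_congr rfl; intro m _
      rw [map_mul, Complex.conj_conj, mul_comm]
    rw [this, Complex.norm_conj]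
  have h3 : ((∑ m ∈ s, ‖∑ l ∈ t, b l * g m l‖ ^ 2 : ℝ) : ℂ) = ∑ l ∈ t, ∑ l' ∈ t, b l * (starRingEnd ℂ) (b l') * G l l' := by
    push_cast
    have : ∀ m ∈ s, ((‖∑ l ∈ t, b l * g m l‖ : ℂ)) ^ 2 = ∑ l ∈ t, ∑ l' ∈ t, b l * (starRingEnd ℂ) (b l') * (g m l * (starRingEnd ℂ) (g m l')) := by
      intro m _
      rw [← Complex.mul_conj', map_sum, sum_mul_sum]
      apply sum_congr rfl; intro l _
      apply sum_congr rfl; intro l' _
      rw [map_mul]; ring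
    rw [sum_congr rfl this, sum_comm]
    apply sum_congr rfl; intro l _
    rw [sum_comm]
    apply sum_congr rfl; intro l' _
    rw [← mul_sum]
  have h4 : ∑ m ∈ s, ‖∑ l ∈ t, b l * g m l‖ ^ 2 ≤ ∑ l ∈ t, ∑ l' ∈ t, ‖b l‖ * ‖b l'‖ * ‖G l l'‖ := by
    have h5 : ∑ m ∈ s, ‖∑ l ∈ t, b l * g m l‖ ^ 2 = ‖((∑ m ∈ s, ‖∑ l ∈ t, b l * g m l‖ ^ 2 : ℝ) : ℂ)‖ := by
      rw [Complex.norm_real, Real.norm_of_nonneg]
      exact sum_nonneg fun _ _ => by positivity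
    rw [h5, h3]
    refine (norm_sum_le _ _).trans (sum_le_sum fun l _ => ?_)
    refine (norm_sum_le _ _).trans (sum_le_sum fun l' _ => ?_)
    rw [norm_mul, norm_mul, Complex.norm_conj]
  refine h4.trans ?_
  have h6 : ∑ l ∈ t, ∑ l' ∈ t, ‖b l‖ * ‖b l'‖ * ‖G l l'‖ ≤ ∑ l ∈ t, ∑ l' ∈ t, (‖b l‖ ^ 2 / 2 * ‖G l l'‖ + ‖b l'‖ ^ 2 / 2 * ‖G l l'‖) := by
    apply sum_le_sum; intro l _
    apply sum_le_sum; intro l' _
    rw [← add_mul]
    apply mul_le_mul_of_nonneg_right _ (norm_nonneg _)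
    nlinarith [sq_nonneg (‖b l‖ - ‖b l'‖)]
  refine h6.trans ?_
  simp_rw [sum_add_distrib]
  have h7 : ∑ l ∈ t, ∑ l' ∈ t, ‖b l'‖ ^ 2 / 2 * ‖G l l'‖ = ∑ l ∈ t, ∑ l' ∈ t, ‖b l‖ ^ 2 / 2 * ‖G l l'‖ := by
    rw [sum_comm]
    apply sum_congr rfl; intro l _
    apply sum_congr rfl; intro l' _
    rw [hGsymm]
  rw [h7, ← two_mul, mul_sum, sum_mul]
  apply sum_le_sum; intro l hl
  rw [← mul_sum]
  calc 2 * (‖b l‖ ^ 2 / 2 * ∑ l' ∈ t, ‖G l l'‖) = ‖b l‖ ^ 2 * ∑ l' ∈ t, ‖G l l'‖ := by ring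
    _ ≤ _ := mul_le_mul_of_nonneg_left (hT l hl) (by positivity)

lemma harm (Q : ℕ) : ∑ q ∈ Icc 1 Q, (1 : ℝ) / q ≤ 1 + Real.log (Q + 1) := by
  have h := harmonic_le_one_add_log Q
  have h2 : ((harmonic Q : ℚ) : ℝ) = ∑ q ∈ Icc 1 Q, (1 : ℝ) / q := by
    rw [harmonic_eq_sum_Icc]; push_cast
    apply sum_congr rfl; intro q _; rw [one_div]
  rw [h2] at h
  refine h.trans ?_
  rcases Nat.eq_zero_or_pos Q with h0 | h0
  · subst h0; simp
  · have : Real.log Q ≤ Real.log (Q + 1) := Real.log_le_log (by exact_mod_cast h0) (by linarith)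
    linarith

lemma sum_inv_dist (B : Finset ℕ) (Q l : ℕ) (hB : ∀ l' ∈ B, l' < l + Q ∧ l < l' + Q) :
    ∑ l' ∈ B.erase l, 1 / |(l : ℝ) - l'| ≤ 2 * (1 + Real.log (Q + 1)) := by
  have h1 : ∑ l' ∈ B.erase l, 1 / |(l : ℝ) - l'| = ∑ l' ∈ (B.erase l).filter (fun l' => l' < l), 1 / |(l : ℝ) - l'| +
      ∑ l' ∈ (B.erase l).filter (fun l' => ¬ l' < l), 1 / |(l : ℝ) - l'| := (sum_filter_add_sum_filter_not _ _ _).symm
  have h2 : ∑ l' ∈ (B.erase l).filter (fun l' => l' < l), 1 / |(l : ℝ) - l'| ≤ ∑ q ∈ Icc 1 Q, (1 : ℝ) / q := by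
    have hinj : Set.InjOn (fun l' => l - l') ((B.erase l).filter (fun l' => l' < l) : Set ℕ) := by
      intro a ha b hb hab
      rw [mem_coe, mem_filter] at ha hb
      simp only at hab
      omega
    have e1 : ∑ l' ∈ (B.erase l).filter (fun l' => l' < l), 1 / |(l : ℝ) - l'| =
        ∑ q ∈ ((B.erase l).filter (fun l' => l' < l)).image (fun l' => l - l'), (1 : ℝ) / q := by
      rw [sum_image hinj]
      apply sum_congr rfl; intro a ha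
      rw [mem_filter] at ha
      rw [Nat.cast_sub ha.2.le, abs_of_pos]
      have : (a : ℝ) < l := by exact_mod_cast ha.2
      linarith
    rw [e1]
    apply sum_le_sum_of_subset_of_nonneg
    · intro q hq
      rw [mem_image] at hq
      obtain ⟨a, ha, rfl⟩ := hq
      rw [mem_filter, mem_erase] at ha
      have := hB a ha.1.2
      rw [mem_Icc]; omega
    · intro q _ _; positivity
  have h3 : ∑ l' ∈ (B.erase l).filter (fun l' => ¬ l' < l), 1 / |(l : ℝ) - l'| ≤ ∑ q ∈ Icc 1 Q, (1 : ℝ) / q := by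
    have hinj : Set.InjOn (fun l' => l' - l) ((B.erase l).filter (fun l' => ¬ l' < l) : Set ℕ) := by
      intro a ha b hb hab
      rw [mem_coe, mem_filter] at ha hb
      simp only at hab
      omega
    have e1 : ∑ l' ∈ (B.erase l).filter (fun l' => ¬ l' < l), 1 / |(l : ℝ) - l'| =
        ∑ q ∈ ((B.erase l).filter (fun l' => ¬ l' < l)).image (fun l' => l' - l), (1 : ℝ) / q := by
      rw [sum_image hinj]
      apply sum_congr rfl; intro a ha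
      rw [mem_filter] at ha
      rw [Nat.cast_sub (by omega), abs_sub_comm, abs_of_nonneg]
      have : (l : ℝ) ≤ a := by exact_mod_cast (by omega : l ≤ a)
      linarith
    rw [e1]
    apply sum_le_sum_of_subset_of_nonneg
    · intro q hq
      rw [mem_image] at hq
      obtain ⟨a, ha, rfl⟩ := hq
      rw [mem_filter, mem_erase] at ha
      have := hB a ha.1.2
      rw [mem_Icc]; omega
    · intro q _ _; positivity
  have h4 := harm Q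
  rw [h1]; linarith

/-- correlation of two columns -/
lemma col {α : ℝ} (h0 : 0 < α) (h1 : α < 1) (κ : ℝ) (hκ : 0 < κ) (N N' M L Q l l' : ℕ) (hM : 1 ≤ M) (hL : 1 ≤ L)
    (hl : L ≤ l ∧ l ≤ 2 * L) (hl' : L ≤ l' ∧ l' ≤ 2 * L) (hlt : l' < l) (hQ : l < l' + Q)
    (hcond : 2 * κ * Q ≤ ((M * L : ℕ) : ℝ) ^ (1 - α)) :
    ‖∑ m ∈ (Ioc M (2 * M)).filter (fun m => (N < m * l ∧ m * l ≤ N') ∧ (N < m * l' ∧ m * l' ≤ N')),
      e (κ * ((l : ℝ) ^ α - (l' : ℝ) ^ α) * (m : ℝ) ^ α)‖ ≤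
      80 / α ^ 2 * (((M * L : ℕ) : ℝ) ^ (1 - α) / κ) * (1 / |(l : ℝ) - l'|) := by
  have hM0 : (0 : ℝ) < M := by exact_mod_cast hM
  have hL0 : (0 : ℝ) < L := by exact_mod_cast hL
  have hl0 : (0 : ℝ) < l' := by exact_mod_cast (by omega : 0 < l')
  have hll : (l' : ℝ) < l := by exact_mod_cast hlt
  obtain ⟨hd1, hd2⟩ := rpow_diff h0 h1 hl0 hll
  have hLp : 0 < (L : ℝ) ^ (α - 1) := Real.rpow_pos_of_pos hL0 _
  have hMp : 0 < (M : ℝ) ^ (α - 1) := Real.rpow_pos_of_pos hM0 _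
  have hdiff0 : (0 : ℝ) < (l : ℝ) - l' := by linarith
  have hlow : α / 2 * (L : ℝ) ^ (α - 1) * ((l : ℝ) - l') ≤ (l : ℝ) ^ α - (l' : ℝ) ^ α := by
    refine le_trans ?_ hd1
    apply mul_le_mul_of_nonneg_right _ hdiff0.le
    have h2 : (2 * (L : ℝ)) ^ (α - 1) ≤ (l : ℝ) ^ (α - 1) := by
      apply rpow_anti' h1 (by linarith)
      exact_mod_cast hl.2
    have h3 : (L : ℝ) ^ (α - 1) / 2 ≤ (2 * (L : ℝ)) ^ (α - 1) := by
      rw [Real.mul_rpow (by norm_num) hL0.le]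
      have h4 : (1 : ℝ) / 2 ≤ 2 ^ (α - 1) := by
        have h5 : (2 : ℝ) ^ (-1 : ℝ) ≤ 2 ^ (α - 1) := Real.rpow_le_rpow_of_exponent_le (by norm_num) (by linarith)
        rw [Real.rpow_neg_one] at h5
        linarith
      calc (L : ℝ) ^ (α - 1) / 2 = 1 / 2 * (L : ℝ) ^ (α - 1) := by ring
        _ ≤ _ := mul_le_mul_of_nonneg_right h4 hLp.le
    calc α / 2 * (L : ℝ) ^ (α - 1) = α * ((L : ℝ) ^ (α - 1) / 2) := by ring
      _ ≤ _ := mul_le_mul_of_nonneg_left (h3.trans h2) h0.le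
  have hup : (l : ℝ) ^ α - (l' : ℝ) ^ α ≤ α * (L : ℝ) ^ (α - 1) * Q := by
    refine hd2.trans ?_
    have h2 : (l' : ℝ) ^ (α - 1) ≤ (L : ℝ) ^ (α - 1) := rpow_anti' h1 hL0 (by exact_mod_cast hl'.1)
    have h3 : (l : ℝ) - l' ≤ Q := by
      have : (l : ℝ) ≤ l' + Q := by exact_mod_cast hQ.le
      linarith
    apply mul_le_mul (mul_le_mul_of_nonneg_left h2 h0.le) h3 hdiff0.le (by positivity)
  set c : ℝ := κ * ((l : ℝ) ^ α - (l' : ℝ) ^ α) with hc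
  have hc0 : 0 < c := by
    apply mul_pos hκ
    refine lt_of_lt_of_le ?_ hlow
    positivity
  have hML : ((M * L : ℕ) : ℝ) ^ (1 - α) = (M : ℝ) ^ (1 - α) * (L : ℝ) ^ (1 - α) := by
    push_cast
    exact Real.mul_rpow hM0.le hL0.le
  have hinvL : (L : ℝ) ^ (1 - α) * (L : ℝ) ^ (α - 1) = 1 := by
    rw [← Real.rpow_add hL0]; norm_num
  have hinvM : (M : ℝ) ^ (1 - α) * (M : ℝ) ^ (α - 1) = 1 := by
    rw [← Real.rpow_add hM0]; norm_num
  have hkl : c * α * (M : ℝ) ^ (α - 1) ≤ 1 / 2 := by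
    have h2 : c ≤ κ * (α * (L : ℝ) ^ (α - 1) * Q) := mul_le_mul_of_nonneg_left hup hκ.le
    have h3 : κ * Q * ((M : ℝ) ^ (α - 1) * (L : ℝ) ^ (α - 1)) ≤ 1 / 2 := by
      have h4 := mul_le_mul_of_nonneg_right hcond (show 0 ≤ (M : ℝ) ^ (α - 1) * (L : ℝ) ^ (α - 1) by positivity)
      rw [hML] at h4
      have h5 : (M : ℝ) ^ (1 - α) * (L : ℝ) ^ (1 - α) * ((M : ℝ) ^ (α - 1) * (L : ℝ) ^ (α - 1)) = 1 := by
        calc _ = ((M : ℝ) ^ (1 - α) * (M : ℝ) ^ (α - 1)) * ((L : ℝ) ^ (1 - α) * (L : ℝ) ^ (α - 1)) := by ring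
          _ = 1 := by rw [hinvL, hinvM, one_mul]
      rw [h5] at h4
      linarith
    have h6 : 0 ≤ κ * Q * ((M : ℝ) ^ (α - 1) * (L : ℝ) ^ (α - 1)) := by positivity
    have h7 : α * α ≤ 1 := by nlinarith
    calc c * α * (M : ℝ) ^ (α - 1) ≤ κ * (α * (L : ℝ) ^ (α - 1) * Q) * α * (M : ℝ) ^ (α - 1) := by
          apply mul_le_mul_of_nonneg_right _ hMp.le
          exact mul_le_mul_of_nonneg_right h2 h0.le
      _ = (α * α) * (κ * Q * ((M : ℝ) ^ (α - 1) * (L : ℝ) ^ (α - 1))) := by ring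
      _ ≤ 1 * (κ * Q * ((M : ℝ) ^ (α - 1) * (L : ℝ) ^ (α - 1))) := mul_le_mul_of_nonneg_right h7 h6
      _ ≤ _ := by linarith
  have hset : (Ioc M (2 * M)).filter (fun m => (N < m * l ∧ m * l ≤ N') ∧ (N < m * l' ∧ m * l' ≤ N')) =
      Ioc (max M (max (N / l) (N / l'))) (min (2 * M) (min (N' / l) (N' / l'))) := by
    ext m
    simp only [mem_filter, mem_Ioc, max_lt_iff, le_min_iff]
    have hlpos : 0 < l := by omega
    have hl'pos : 0 < l' := by omega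
    rw [Nat.div_lt_iff_lt_mul hlpos, Nat.div_lt_iff_lt_mul hl'pos, Nat.le_div_iff_mul_le hlpos, Nat.le_div_iff_mul_le hl'pos]
    tauto
  rw [hset]
  have h2 := kl_Ioc h0 h1 c hc0 M (max M (max (N / l) (N / l'))) (min (2 * M) (min (N' / l) (N' / l'))) hM
    (by have := le_max_left M (max (N / l) (N / l')); omega)
    (by have := min_le_left (2 * M) (min (N' / l) (N' / l')); omega) hkl
  refine h2.trans ?_
  have hcl : κ * (α / 2 * (L : ℝ) ^ (α - 1) * ((l : ℝ) - l')) ≤ c := mul_le_mul_of_nonneg_left hlow hκ.le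
  have hMq : 0 < (M : ℝ) ^ (1 - α) := Real.rpow_pos_of_pos hM0 _
  have hLq : 0 < (L : ℝ) ^ (1 - α) := Real.rpow_pos_of_pos hL0 _
  have h3 : (M : ℝ) ^ (1 - α) / c ≤ (M : ℝ) ^ (1 - α) / (κ * (α / 2 * (L : ℝ) ^ (α - 1) * ((l : ℝ) - l'))) :=
    div_le_div_of_nonneg_left hMq.le (by positivity) hcl
  have h4 : 40 / α * ((M : ℝ) ^ (1 - α) / (κ * (α / 2 * (L : ℝ) ^ (α - 1) * ((l : ℝ) - l')))) =
      80 / α ^ 2 * (((M * L : ℕ) : ℝ) ^ (1 - α) / κ) * (1 / |(l : ℝ) - l'|) := by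
    rw [hML, abs_of_pos hdiff0]
    have h5 : (L : ℝ) ^ (α - 1) = ((L : ℝ) ^ (1 - α))⁻¹ := by
      rw [← Real.rpow_neg hL0.le]; congr 1; ring
    rw [h5]
    field_simp
    norm_num
  rw [← h4]
  exact mul_le_mul_of_nonneg_left h3 (by positivity)

/-- bilinear sums -/
theorem typeII {α : ℝ} (h0 : 0 < α) (h1 : α < 1) (κ : ℝ) (hκ : 0 < κ) (N N' M L Q : ℕ) (hM : 1 ≤ M) (hL : 1 ≤ L) (hQ : 1 ≤ Q)
    (a b : ℕ → ℂ) (hcond : 2 * κ * Q ≤ ((M * L : ℕ) : ℝ) ^ (1 - α)) :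
    ‖∑ m ∈ Ioc M (2 * M), ∑ l ∈ Ioc L (2 * L), a m * b l * (if N < m * l ∧ m * l ≤ N' then
      e (κ * ((m * l : ℕ) : ℝ) ^ α) else 0)‖ ^ 2 ≤
      ((L / Q : ℕ) + 1 : ℝ) * ((∑ m ∈ Ioc M (2 * M), ‖a m‖ ^ 2) * ((∑ l ∈ Ioc L (2 * L), ‖b l‖ ^ 2) *
        (M + 160 / α ^ 2 * (((M * L : ℕ) : ℝ) ^ (1 - α) / κ) * (1 + Real.log (Q + 1))))) := by
  classical
  set g : ℕ → ℕ → ℂ := fun m l => if N < m * l ∧ m * l ≤ N' then e (κ * ((m * l : ℕ) : ℝ) ^ α) else 0 with hg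
  set T : ℝ := M + 160 / α ^ 2 * (((M * L : ℕ) : ℝ) ^ (1 - α) / κ) * (1 + Real.log (Q + 1)) with hT
  set J := L / Q + 1 with hJ
  set blk : ℕ → Finset ℕ := fun j => (Ioc L (2 * L)).filter (fun l => (l - L - 1) / Q = j) with hblk
  have hM0 : (0 : ℝ) < M := by exact_mod_cast hM
  have hpow : 0 ≤ ((M * L : ℕ) : ℝ) ^ (1 - α) := Real.rpow_nonneg (Nat.cast_nonneg _) _
  have hlogQ : 0 ≤ Real.log (Q + 1) := Real.log_nonneg (by have : (0 : ℝ) ≤ Q := Nat.cast_nonneg _; linarith)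
  have hT0 : 0 ≤ T := by positivity
  have hmem : ∀ l ∈ Ioc L (2 * L), (l - L - 1) / Q ∈ range J := by
    intro l hl
    rw [mem_Ioc] at hl
    rw [mem_range, hJ]
    have : (l - L - 1) / Q ≤ L / Q := Nat.div_le_div_right (by omega)
    omega
  have hsplit : ∑ m ∈ Ioc M (2 * M), ∑ l ∈ Ioc L (2 * L), a m * b l * g m l =
      ∑ j ∈ range J, ∑ m ∈ Ioc M (2 * M), ∑ l ∈ blk j, a m * b l * g m l := by
    symm
    rw [sum_comm]
    apply sum_congr rfl; intro m _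
    exact sum_fiberwise_of_maps_to hmem _
  have hgg : ∀ m l l', g m l * (starRingEnd ℂ) (g m l') = if (N < m * l ∧ m * l ≤ N') ∧ (N < m * l' ∧ m * l' ≤ N') then
      e (κ * ((l : ℝ) ^ α - (l' : ℝ) ^ α) * (m : ℝ) ^ α) else 0 := by
    intro m l l'
    simp only [hg]
    by_cases h2 : N < m * l ∧ m * l ≤ N'
    · by_cases h3 : N < m * l' ∧ m * l' ≤ N'
      · rw [if_pos h2, if_pos h3, if_pos ⟨h2, h3⟩, conj_e, ← e_add]
        congr 1
        push_cast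
        rw [Real.mul_rpow (Nat.cast_nonneg _) (Nat.cast_nonneg _), Real.mul_rpow (Nat.cast_nonneg _) (Nat.cast_nonneg _)]
        ring
      · rw [if_neg h3, map_zero, mul_zero, if_neg (fun h => h3 h.2)]
    · rw [if_neg h2, zero_mul, if_neg (fun h => h2 h.1)]
  have hblkspec : ∀ j, ∀ l ∈ blk j, ∀ l' ∈ blk j, l < l' + Q := by
    intro j l hl l' hl'
    simp only [hblk, mem_filter, mem_Ioc] at hl hl'
    have e1 := Nat.div_add_mod (l - L - 1) Q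
    have e2 := Nat.div_add_mod (l' - L - 1) Q
    have e3 := Nat.mod_lt (l - L - 1) (show 0 < Q by omega)
    rw [hl.2] at e1
    rw [hl'.2] at e2
    omega
  have hblkm : ∀ j, ∀ l ∈ blk j, L ≤ l ∧ l ≤ 2 * L := by
    intro j l hl
    simp only [hblk, mem_filter, mem_Ioc] at hl
    omega
  have hTj : ∀ j ∈ range J, ∀ l ∈ blk j, ∑ l' ∈ blk j, ‖∑ m ∈ Ioc M (2 * M), g m l * (starRingEnd ℂ) (g m l')‖ ≤ T := by
    intro j _ l hl
    have hoff : ∀ l' ∈ (blk j).erase l, ‖∑ m ∈ Ioc M (2 * M), g m l * (starRingEnd ℂ) (g m l')‖ ≤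
        80 / α ^ 2 * (((M * L : ℕ) : ℝ) ^ (1 - α) / κ) * (1 / |(l : ℝ) - l'|) := by
      intro l' hl'
      rw [mem_erase] at hl'
      simp_rw [hgg]
      rw [← sum_filter]
      rcases Nat.lt_or_gt_of_ne hl'.1 with h | h
      · exact col h0 h1 κ hκ N N' M L Q l l' hM hL (hblkm j l hl) (hblkm j l' hl'.2) h (hblkspec j l hl l' hl'.2) hcond
      · have h2 := col h0 h1 κ hκ N N' M L Q l' l hM hL (hblkm j l' hl'.2) (hblkm j l hl) h (hblkspec j l' hl'.2 l hl) hcond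
        rw [abs_sub_comm]
        refine le_trans (le_of_eq ?_) h2
        have h3 : ∑ m ∈ (Ioc M (2 * M)).filter (fun m => (N < m * l' ∧ m * l' ≤ N') ∧ (N < m * l ∧ m * l ≤ N')),
            e (κ * ((l' : ℝ) ^ α - (l : ℝ) ^ α) * (m : ℝ) ^ α) = (starRingEnd ℂ) (∑ m ∈ (Ioc M (2 * M)).filter
            (fun m => (N < m * l ∧ m * l ≤ N') ∧ (N < m * l' ∧ m * l' ≤ N')), e (κ * ((l : ℝ) ^ α - (l' : ℝ) ^ α) * (m : ℝ) ^ α)) := by
          rw [map_sum]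
          apply sum_congr
          · ext m; simp only [mem_filter]; tauto
          · intro m _
            rw [conj_e]; congr 1; ring
        rw [h3, Complex.norm_conj]
    have hdiag : ‖∑ m ∈ Ioc M (2 * M), g m l * (starRingEnd ℂ) (g m l)‖ ≤ M := by
      refine (norm_sum_le _ _).trans ?_
      calc ∑ m ∈ Ioc M (2 * M), ‖g m l * (starRingEnd ℂ) (g m l)‖ ≤ ∑ _m ∈ Ioc M (2 * M), (1 : ℝ) := by
            apply sum_le_sum; intro m _
            rw [hgg]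
            split_ifs
            · rw [norm_e]
            · rw [norm_zero]; norm_num
        _ = M := by
            rw [sum_const, Nat.card_Ioc, nsmul_eq_mul, mul_one]
            congr 1; omega
    rw [← add_sum_erase _ _ hl]
    have hsum := sum_inv_dist (blk j) Q l (fun l' hl' => ⟨hblkspec j l' hl' l hl, hblkspec j l hl l' hl'⟩)
    calc _ ≤ (M : ℝ) + ∑ l' ∈ (blk j).erase l, 80 / α ^ 2 * (((M * L : ℕ) : ℝ) ^ (1 - α) / κ) * (1 / |(l : ℝ) - l'|) :=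
          add_le_add hdiag (sum_le_sum hoff)
      _ = M + 80 / α ^ 2 * (((M * L : ℕ) : ℝ) ^ (1 - α) / κ) * ∑ l' ∈ (blk j).erase l, 1 / |(l : ℝ) - l'| := by rw [mul_sum]
      _ ≤ M + 80 / α ^ 2 * (((M * L : ℕ) : ℝ) ^ (1 - α) / κ) * (2 * (1 + Real.log (Q + 1))) := by
          gcongr
      _ = T := by rw [hT]; ring
  rw [hsplit]
  have h5 : ‖∑ j ∈ range J, ∑ m ∈ Ioc M (2 * M), ∑ l ∈ blk j, a m * b l * g m l‖ ^ 2 ≤
      J * ∑ j ∈ range J, ‖∑ m ∈ Ioc M (2 * M), ∑ l ∈ blk j, a m * b l * g m l‖ ^ 2 := by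
    have h6 : ‖∑ j ∈ range J, ∑ m ∈ Ioc M (2 * M), ∑ l ∈ blk j, a m * b l * g m l‖ ≤
        ∑ j ∈ range J, ‖∑ m ∈ Ioc M (2 * M), ∑ l ∈ blk j, a m * b l * g m l‖ := norm_sum_le _ _
    refine (pow_le_pow_left₀ (norm_nonneg _) h6 2).trans ?_
    have h7 := sq_sum_le_card_mul_sum_sq (s := range J) (f := fun j => ‖∑ m ∈ Ioc M (2 * M), ∑ l ∈ blk j, a m * b l * g m l‖)
    rw [card_range] at h7
    exact h7
  refine h5.trans ?_
  have hJr : (J : ℝ) = ((L / Q : ℕ) + 1 : ℝ) := by rw [hJ]; push_cast; ring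
  rw [hJr]
  apply mul_le_mul_of_nonneg_left _ (by positivity)
  calc ∑ j ∈ range J, ‖∑ m ∈ Ioc M (2 * M), ∑ l ∈ blk j, a m * b l * g m l‖ ^ 2
      ≤ ∑ j ∈ range J, (∑ m ∈ Ioc M (2 * M), ‖a m‖ ^ 2) * ((∑ l ∈ blk j, ‖b l‖ ^ 2) * T) := by
        apply sum_le_sum; intro j hj
        exact bilin _ _ a b g T (hTj j hj)
    _ = (∑ m ∈ Ioc M (2 * M), ‖a m‖ ^ 2) * ((∑ l ∈ Ioc L (2 * L), ‖b l‖ ^ 2) * T) := by
        rw [← mul_sum, ← sum_mul]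
        congr 2
        exact sum_fiberwise_of_maps_to hmem _

end Pool.Agent.H373R2.T3
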