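import Mathlib
import Pool.Agent.H50.G.S.H373R2.T3.TypeII
namespace Pool.Agent.H373R2.T3
open Finset
open Pool.Agent.H469R2.NK (e norm_e e_add conj_e norm_sum_neg e_zero)

lemma two_rpow_le {β : ℝ} (h0 : 0 < β) (h1 : β < 1) {t : ℝ} (ht : 0 ≤ t) : (2 * t) ^ β ≤ 2 * t ^ β := by
  rw [Real.mul_rpow (by norm_num) ht]
  apply mul_le_mul_of_nonneg_right _ (Real.rpow_nonneg ht _)
  calc (2 : ℝ) ^ β ≤ 2 ^ (1 : ℝ) := Real.rpow_le_rpow_of_exponent_le (by norm_num) h1.le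
    _ = 2 := Real.rpow_one 2

lemma quarter_rpow_ge {β : ℝ} (h0 : 0 < β) (h1 : β < 1) {t : ℝ} (ht : 0 ≤ t) : t ^ β / 4 ≤ (t / 4) ^ β := by
  rw [Real.div_rpow ht (by norm_num)]
  apply div_le_div_of_nonneg_left (Real.rpow_nonneg ht _) (Real.rpow_pos_of_pos (by norm_num) _)
  calc (4 : ℝ) ^ β ≤ 4 ^ (1 : ℝ) := Real.rpow_le_rpow_of_exponent_le (by norm_num) h1.le
    _ = 4 := Real.rpow_one 4

theorem piece {α : ℝ} (h0 : 0 < α) (h1 : α < 1) (κ : ℝ) (hκ : 1 ≤ κ) (N N' M L : ℕ) (hN : 1 ≤ N) (hN' : N' ≤ 2 * N)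
    (hM : 1 ≤ M) (hL : 1 ≤ L) (hML1 : N < 4 * (M * L)) (hML2 : M * L ≤ N')
    (a b : ℕ → ℂ) (A₂ B₂ T : ℝ) (hA : ∑ m ∈ Ioc M (2 * M), ‖a m‖ ^ 2 ≤ A₂ * M) (hB : ∑ l ∈ Ioc L (2 * L), ‖b l‖ ^ 2 ≤ B₂ * L)
    (hA0 : 0 ≤ A₂) (hB0 : 0 ≤ B₂) (hMT : (M : ℝ) ≤ T) (hLT : (L : ℝ) ≤ T) (hκα : κ * (N : ℝ) ^ α ≤ T)
    (hκβ : (N : ℝ) ^ (1 - α) / κ ≤ T) (hκN : 16 * κ ≤ (N : ℝ) ^ (1 - α)) :
    ‖∑ m ∈ Ioc M (2 * M), ∑ l ∈ Ioc L (2 * L), a m * b l * (if N < m * l ∧ m * l ≤ N' then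
      e (κ * ((m * l : ℕ) : ℝ) ^ α) else 0)‖ ^ 2 ≤
      (18 + 12 * (160 / α ^ 2)) * (A₂ * B₂ * (N * T * (1 + Real.log (2 * N + 1)))) := by
  have hκ0 : 0 < κ := by linarith
  have hN0 : (1 : ℝ) ≤ N := by exact_mod_cast hN
  have hM0 : (1 : ℝ) ≤ M := by exact_mod_cast hM
  have hL0 : (1 : ℝ) ≤ L := by exact_mod_cast hL
  have hML0 : (0 : ℝ) < ((M * L : ℕ) : ℝ) := by push_cast; positivity
  set Y : ℝ := ((M * L : ℕ) : ℝ) ^ (1 - α) with hY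
  have hY0 : 0 < Y := Real.rpow_pos_of_pos hML0 _
  have hT0 : 0 ≤ T := le_trans (by linarith) hMT
  have hMLr : ((M * L : ℕ) : ℝ) ≤ 2 * N := by exact_mod_cast hML2.trans hN'
  have hMLr' : (N : ℝ) / 4 ≤ ((M * L : ℕ) : ℝ) := by
    rw [div_le_iff₀ (by norm_num)]
    have : (N : ℝ) ≤ ((4 * (M * L) : ℕ) : ℝ) := by exact_mod_cast hML1.le
    push_cast at this ⊢
    linarith
  have hYlow : (N : ℝ) ^ (1 - α) / 4 ≤ Y :=
    (quarter_rpow_ge (by linarith) (by linarith) (by linarith)).trans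
      (Real.rpow_le_rpow (by positivity) hMLr' (by linarith))
  have hYup : Y ≤ 2 * (N : ℝ) ^ (1 - α) :=
    (Real.rpow_le_rpow hML0.le hMLr (by linarith)).trans (two_rpow_le (by linarith) (by linarith) (by linarith))
  have hY4 : 4 * κ ≤ Y := by linarith
  set Q : ℕ := ⌊Y / (2 * κ)⌋₊ with hQ
  have hQup : (Q : ℝ) ≤ Y / (2 * κ) := Nat.floor_le (by positivity)
  have hQlow : Y / (4 * κ) ≤ Q := by
    have h2 : Y / (2 * κ) < Q + 1 := Nat.lt_floor_add_one _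
    have h3 : 1 ≤ Y / (4 * κ) := by rw [le_div_iff₀ (by positivity)]; linarith
    have h4 : Y / (2 * κ) = Y / (4 * κ) + Y / (4 * κ) := by field_simp; ring
    linarith
  have hQ1 : 1 ≤ Q := by
    have h3 : 1 ≤ Y / (4 * κ) := by rw [le_div_iff₀ (by positivity)]; linarith
    have : (1 : ℝ) ≤ Q := h3.trans hQlow
    exact_mod_cast this
  have hQ0 : (0 : ℝ) < Q := by exact_mod_cast hQ1
  have hcond : 2 * κ * Q ≤ Y := by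
    rw [le_div_iff₀ (by positivity)] at hQup
    linarith
  have h2 := typeII h0 h1 κ hκ0 N N' M L Q hM hL hQ1 a b hcond
  refine h2.trans ?_
  set ℓ : ℝ := 1 + Real.log (2 * N + 1) with hℓ
  have hlog0 : 0 ≤ Real.log (2 * (N : ℝ) + 1) := Real.log_nonneg (by linarith)
  have hℓ1 : 1 ≤ ℓ := by linarith
  have hQN : (Q : ℝ) ≤ 2 * N := by
    have h3 : Y / (2 * κ) ≤ Y := div_le_self hY0.le (by linarith)
    have h4 : (N : ℝ) ^ (1 - α) ≤ N := by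
      calc (N : ℝ) ^ (1 - α) ≤ (N : ℝ) ^ (1 : ℝ) := Real.rpow_le_rpow_of_exponent_le hN0 (by linarith)
        _ = N := Real.rpow_one _
    linarith
  have hlogQ : 1 + Real.log (Q + 1) ≤ ℓ := by
    have : Real.log ((Q : ℝ) + 1) ≤ Real.log (2 * N + 1) := Real.log_le_log (by linarith) (by linarith)
    linarith
  have hlogQ0 : 0 ≤ 1 + Real.log ((Q : ℝ) + 1) := by
    have := Real.log_nonneg (show (1 : ℝ) ≤ (Q : ℝ) + 1 by linarith)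
    linarith
  set C₁ : ℝ := 160 / α ^ 2 with hC₁
  have hC₁0 : 0 < C₁ := by positivity
  have hJ : ((L / Q : ℕ) + 1 : ℝ) ≤ 4 * κ * L / Y + 1 := by
    have h3 : ((L / Q : ℕ) : ℝ) ≤ L / Q := Nat.cast_div_le
    have h4 : (L : ℝ) / Q ≤ 4 * κ * L / Y := by
      rw [div_le_div_iff₀ hQ0 hY0]
      rw [div_le_iff₀ (by positivity)] at hQlow
      nlinarith
    linarith
  have hα2 : κ * ((M * L : ℕ) : ℝ) ^ α ≤ 2 * T := by
    have h3 : ((M * L : ℕ) : ℝ) ^ α ≤ 2 * (N : ℝ) ^ α :=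
      (Real.rpow_le_rpow hML0.le hMLr h0.le).trans (two_rpow_le h0 h1 (by linarith))
    calc κ * ((M * L : ℕ) : ℝ) ^ α ≤ κ * (2 * (N : ℝ) ^ α) := mul_le_mul_of_nonneg_left h3 hκ0.le
      _ = 2 * (κ * (N : ℝ) ^ α) := by ring
      _ ≤ _ := by linarith
  have hYsplit : ((M * L : ℕ) : ℝ) / Y = ((M * L : ℕ) : ℝ) ^ α := by
    rw [hY, div_eq_iff (Real.rpow_pos_of_pos hML0 _).ne', ← Real.rpow_add hML0]
    norm_num
  have hYκ : Y / κ ≤ 2 * T := by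
    calc Y / κ ≤ 2 * (N : ℝ) ^ (1 - α) / κ := div_le_div_of_nonneg_right hYup hκ0.le
      _ = 2 * ((N : ℝ) ^ (1 - α) / κ) := by ring
      _ ≤ _ := by linarith
  calc ((L / Q : ℕ) + 1 : ℝ) * ((∑ m ∈ Ioc M (2 * M), ‖a m‖ ^ 2) * ((∑ l ∈ Ioc L (2 * L), ‖b l‖ ^ 2) *
        (M + C₁ * (Y / κ) * (1 + Real.log (Q + 1)))))
      ≤ (4 * κ * L / Y + 1) * ((A₂ * M) * ((B₂ * L) * (M + C₁ * (Y / κ) * ℓ))) := by
        gcongr
    _ = A₂ * B₂ * (M * L) * (4 * κ * ((M * L) / Y) + 4 * C₁ * ℓ * L + M + C₁ * (Y / κ) * ℓ) := by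
        field_simp
        ring
    _ ≤ A₂ * B₂ * (2 * N) * (8 * T + 4 * C₁ * ℓ * T + T + C₁ * (2 * T) * ℓ) := by
        have h3 : ((M : ℝ) * L) ≤ 2 * N := by exact_mod_cast hML2.trans hN'
        have h4 : 4 * κ * (((M : ℝ) * L) / Y) ≤ 8 * T := by
          have h5 : ((M : ℝ) * L) / Y = ((M * L : ℕ) : ℝ) ^ α := by rw [← hYsplit]; push_cast; rfl
          rw [h5]; linarith
        gcongr
    _ = A₂ * B₂ * (N * T) * (18 + 12 * C₁ * ℓ) := by ring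
    _ ≤ A₂ * B₂ * (N * T) * ((18 + 12 * C₁) * ℓ) := by
        apply mul_le_mul_of_nonneg_left _ (by positivity)
        nlinarith
    _ = _ := by ring

lemma dyadic_sum {β : Type*} [AddCommMonoid β] (f : ℕ → β) (I : ℕ) :
    ∑ m ∈ Ioc 1 (2 ^ I), f m = ∑ i ∈ range I, ∑ m ∈ Ioc (2 ^ i) (2 * 2 ^ i), f m := by
  induction I with
  | zero => simp
  | succ I ih =>
    rw [sum_range_succ, ← ih]
    have h1 : Ioc 1 (2 ^ (I + 1)) = Ioc 1 (2 ^ I) ∪ Ioc (2 ^ I) (2 * 2 ^ I) := by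
      rw [pow_succ, mul_comm, Ioc_union_Ioc_eq_Ioc Nat.one_le_two_pow (by omega)]
    rw [h1, sum_union]
    rw [disjoint_left]
    intro m hm hm'
    rw [mem_Ioc] at hm hm'
    omega

/-- total bilinear sum -/
theorem bil_total {α : ℝ} (h0 : 0 < α) (h1 : α < 1) (κ : ℝ) (hκ : 1 ≤ κ) (N N' : ℕ) (hN : 1 ≤ N) (hN' : N' ≤ 2 * N)
    (a b : ℕ → ℂ) (A₂ B₂ T : ℝ) (hA : ∀ M : ℕ, 1 ≤ M → M ≤ 2 * N → ∑ m ∈ Ioc M (2 * M), ‖a m‖ ^ 2 ≤ A₂ * M)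
    (hB : ∀ L : ℕ, 1 ≤ L → L ≤ 2 * N → ∑ l ∈ Ioc L (2 * L), ‖b l‖ ^ 2 ≤ B₂ * L)
    (hA0 : 0 ≤ A₂) (hB0 : 0 ≤ B₂)
    (hsupp : ∀ m l : ℕ, N < m * l → m * l ≤ N' → a m ≠ 0 → b l ≠ 0 → 1 < m ∧ 1 < l ∧ (m : ℝ) ≤ T ∧ (l : ℝ) ≤ T)
    (hκα : κ * (N : ℝ) ^ α ≤ T) (hκβ : (N : ℝ) ^ (1 - α) / κ ≤ T) (hκN : 16 * κ ≤ (N : ℝ) ^ (1 - α)) :
    ‖∑ m ∈ Icc 1 N', ∑ l ∈ Ioc (N / m) (N' / m), a m * b l * e (κ * ((m * l : ℕ) : ℝ) ^ α)‖ ≤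
      (Nat.log 2 N' + 1 : ℝ) ^ 2 * Real.sqrt ((18 + 12 * (160 / α ^ 2)) * (A₂ * B₂ * (N * T * (1 + Real.log (2 * N + 1))))) := by
  classical
  set I := Nat.log 2 N' + 1 with hI
  have hI2 : N' < 2 ^ I := Nat.lt_pow_succ_log_self (by norm_num) _
  set F : ℕ → ℕ → ℂ := fun m l => a m * b l * (if N < m * l ∧ m * l ≤ N' then e (κ * ((m * l : ℕ) : ℝ) ^ α) else 0) with hF
  have hF0 : ∀ m l, F m l ≠ 0 → N < m * l ∧ m * l ≤ N' ∧ a m ≠ 0 ∧ b l ≠ 0 := by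
    intro m l h
    simp only [hF] at h
    have h2 := left_ne_zero_of_mul h
    have h3 := right_ne_zero_of_mul h
    split_ifs at h3 with h4
    · exact ⟨h4.1, h4.2, left_ne_zero_of_mul h2, right_ne_zero_of_mul h2⟩
    · exact absurd rfl h3
  have hinner : ∀ m ∈ Icc 1 N', ∑ l ∈ Ioc (N / m) (N' / m), a m * b l * e (κ * ((m * l : ℕ) : ℝ) ^ α) = ∑ l ∈ Ioc 1 (2 ^ I), F m l := by
    intro m hm
    rw [mem_Icc] at hm
    have hm0 : 0 < m := by omega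
    have e1 : ∑ l ∈ Ioc (N / m) (N' / m), a m * b l * e (κ * ((m * l : ℕ) : ℝ) ^ α) = ∑ l ∈ Ioc (N / m) (N' / m), F m l := by
      apply sum_congr rfl; intro l hl
      rw [mem_Ioc, Nat.div_lt_iff_lt_mul hm0, Nat.le_div_iff_mul_le hm0] at hl
      simp only [hF]
      rw [if_pos ⟨by rw [mul_comm]; exact hl.1, by rw [mul_comm]; exact hl.2⟩]
    rw [e1]
    symm
    rw [← sum_filter_ne_zero, ← sum_filter_ne_zero (s := Ioc (N / m) (N' / m))]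
    apply sum_congr _ fun _ _ => rfl
    ext l
    rw [mem_filter, mem_filter, mem_Ioc, mem_Ioc, Nat.div_lt_iff_lt_mul hm0, Nat.le_div_iff_mul_le hm0]
    constructor
    · rintro ⟨_, h3⟩
      obtain ⟨g1, g2, g3, g4⟩ := hF0 m l h3
      exact ⟨⟨by rw [mul_comm]; exact g1, by rw [mul_comm]; exact g2⟩, h3⟩
    · rintro ⟨_, h3⟩
      obtain ⟨g1, g2, g3, g4⟩ := hF0 m l h3
      obtain ⟨g5, g6, _, _⟩ := hsupp m l g1 g2 g3 g4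
      refine ⟨⟨g6, ?_⟩, h3⟩
      have : l ≤ m * l := Nat.le_mul_of_pos_left _ hm0
      omega
  rw [sum_congr rfl hinner]
  have houter : ∑ m ∈ Icc 1 N', ∑ l ∈ Ioc 1 (2 ^ I), F m l = ∑ m ∈ Ioc 1 (2 ^ I), ∑ l ∈ Ioc 1 (2 ^ I), F m l := by
    have hne : ∀ m, ∑ l ∈ Ioc 1 (2 ^ I), F m l ≠ 0 → 1 < m ∧ m ≤ N' := by
      intro m h
      obtain ⟨l, _, hl⟩ := exists_ne_zero_of_sum_ne_zero h
      obtain ⟨g1, g2, g3, g4⟩ := hF0 m l hl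
      obtain ⟨g5, g6, _, _⟩ := hsupp m l g1 g2 g3 g4
      refine ⟨g5, ?_⟩
      have : m ≤ m * l := Nat.le_mul_of_pos_right _ (by omega)
      omega
    rw [← sum_filter_ne_zero, ← sum_filter_ne_zero (s := Ioc 1 (2 ^ I))]
    apply sum_congr _ fun _ _ => rfl
    ext m
    rw [mem_filter, mem_filter, mem_Icc, mem_Ioc]
    constructor
    · rintro ⟨_, h3⟩
      have := hne m h3
      exact ⟨⟨this.1, by omega⟩, h3⟩
    · rintro ⟨_, h3⟩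
      have := hne m h3
      exact ⟨⟨by omega, this.2⟩, h3⟩
  rw [houter, dyadic_sum]
  simp_rw [dyadic_sum _ I]
  set R : ℝ := Real.sqrt ((18 + 12 * (160 / α ^ 2)) * (A₂ * B₂ * (N * T * (1 + Real.log (2 * N + 1))))) with hR
  have hR0 : 0 ≤ R := Real.sqrt_nonneg _
  have hpiece : ∀ i j : ℕ, ‖∑ m ∈ Ioc (2 ^ i) (2 * 2 ^ i), ∑ l ∈ Ioc (2 ^ j) (2 * 2 ^ j), F m l‖ ≤ R := by
    intro i j
    by_cases hz : ∑ m ∈ Ioc (2 ^ i) (2 * 2 ^ i), ∑ l ∈ Ioc (2 ^ j) (2 * 2 ^ j), F m l = 0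
    · rw [hz, norm_zero]; exact hR0
    · obtain ⟨m, hm, hm2⟩ := exists_ne_zero_of_sum_ne_zero hz
      obtain ⟨l, hl, hl2⟩ := exists_ne_zero_of_sum_ne_zero hm2
      obtain ⟨g1, g2, g3, g4⟩ := hF0 m l hl2
      obtain ⟨g5, g6, g7, g8⟩ := hsupp m l g1 g2 g3 g4
      rw [mem_Ioc] at hm hl
      have hM1 : 1 ≤ 2 ^ i := Nat.one_le_two_pow
      have hL1 : 1 ≤ 2 ^ j := Nat.one_le_two_pow
      have k1 : N < 4 * (2 ^ i * 2 ^ j) := by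
        calc N < m * l := g1
          _ ≤ (2 * 2 ^ i) * (2 * 2 ^ j) := Nat.mul_le_mul hm.2 hl.2
          _ = _ := by ring
      have k2 : 2 ^ i * 2 ^ j ≤ N' := (Nat.mul_le_mul hm.1.le hl.1.le).trans g2
      have k3 : 2 ^ i ≤ 2 * N := by
        have : 2 ^ i ≤ 2 ^ i * 2 ^ j := Nat.le_mul_of_pos_right _ (by omega)
        omega
      have k4 : 2 ^ j ≤ 2 * N := by
        have : 2 ^ j ≤ 2 ^ i * 2 ^ j := Nat.le_mul_of_pos_left _ (by omega)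
        omega
      have h2 := piece h0 h1 κ hκ N N' (2 ^ i) (2 ^ j) hN hN' hM1 hL1 k1 k2 a b A₂ B₂ T
        (hA _ hM1 k3) (hB _ hL1 k4) hA0 hB0
        (le_trans (by exact_mod_cast hm.1.le) g7) (le_trans (by exact_mod_cast hl.1.le) g8) hκα hκβ hκN
      exact Real.le_sqrt_of_sq_le h2
  calc ‖∑ i ∈ range I, ∑ m ∈ Ioc (2 ^ i) (2 * 2 ^ i), ∑ j ∈ range I, ∑ l ∈ Ioc (2 ^ j) (2 * 2 ^ j), F m l‖
      = ‖∑ i ∈ range I, ∑ j ∈ range I, ∑ m ∈ Ioc (2 ^ i) (2 * 2 ^ i), ∑ l ∈ Ioc (2 ^ j) (2 * 2 ^ j), F m l‖ := by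
        congr 1
        apply sum_congr rfl; intro i _
        rw [sum_comm]
    _ ≤ ∑ i ∈ range I, ∑ j ∈ range I, R := by
        refine (norm_sum_le _ _).trans (sum_le_sum fun i _ => ?_)
        exact (norm_sum_le _ _).trans (sum_le_sum fun j _ => hpiece i j)
    _ = _ := by
        simp only [sum_const, card_range, nsmul_eq_mul]
        rw [hI]; push_cast; ring

end Pool.Agent.H373R2.T3
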