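import Mathlib
import Pool.Agent.H50.G.S.H373R2.T3.Pieces
import Pool.Agent.H50.G.S.Helper112.TypeI
import Pool.Agent.H50.G.S.H316R2.LS
namespace Pool.Agent.H373R2.T3
open Finset
open Pool.Agent.H469R2.NK (e norm_e e_add conj_e norm_sum_neg e_zero)
open Pool.Agent.Helper112 (betaV LamII)
open Pool.Agent.Helper112.TI (mu1 l1 mu1_apply l1_apply)

/-- hyperbola rearrangement on an interval -/
lemma hyp (N N' : ℕ) (g : ℕ → ℕ → ℂ) :
    ∑ n ∈ Ioc N N', ∑ i ∈ n.divisorsAntidiagonal, g i.1 i.2 = ∑ m ∈ Icc 1 N', ∑ l ∈ Ioc (N / m) (N' / m), g m l := by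
  rw [sum_sigma', sum_sigma']
  apply sum_nbij' (fun p => (⟨p.2.1, p.2.2⟩ : (_ : ℕ) × ℕ)) (fun q => (⟨q.1 * q.2, (q.1, q.2)⟩ : (_ : ℕ) × (ℕ × ℕ)))
  · rintro ⟨n, a, b⟩ h
    simp only [mem_sigma, mem_Ioc, Nat.mem_divisorsAntidiagonal] at h
    obtain ⟨⟨h1, h2⟩, h3, h4⟩ := h
    have ha : 0 < a := Nat.pos_of_ne_zero (by rintro rfl; simp at h3; omega)
    have hb : 0 < b := Nat.pos_of_ne_zero (by rintro rfl; simp at h3; omega)
    simp only [mem_sigma, mem_Icc, mem_Ioc]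
    rw [Nat.div_lt_iff_lt_mul ha, Nat.le_div_iff_mul_le ha]
    have h5 : a ≤ a * b := Nat.le_mul_of_pos_right _ hb
    refine ⟨⟨ha, by omega⟩, ?_, ?_⟩
    · rw [mul_comm, h3]; exact h1
    · rw [mul_comm, h3]; exact h2
  · rintro ⟨a, b⟩ h
    simp only [mem_sigma, mem_Icc, mem_Ioc] at h
    obtain ⟨⟨h1, h2⟩, h3, h4⟩ := h
    have ha : 0 < a := by omega
    rw [Nat.div_lt_iff_lt_mul ha] at h3
    rw [Nat.le_div_iff_mul_le ha] at h4
    simp only [mem_sigma, mem_Ioc, Nat.mem_divisorsAntidiagonal]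
    refine ⟨⟨by rw [mul_comm]; exact h3, by rw [mul_comm]; exact h4⟩, trivial, ?_⟩
    rw [mul_comm]; omega
  · rintro ⟨n, a, b⟩ h
    simp only [mem_sigma, mem_Ioc, Nat.mem_divisorsAntidiagonal] at h
    obtain ⟨_, h3, _⟩ := h
    simp [h3]
  · rintro ⟨a, b⟩ _
    rfl
  · rintro ⟨n, a, b⟩ _
    rfl

/-- partial summation with increasing weights -/
lemma abel_Ioc (a b : ℕ) (hab : a ≤ b) (w : ℕ → ℝ) (z : ℕ → ℂ) (B : ℝ) (hw : Monotone w) (hw0 : ∀ n, 0 ≤ w n)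
    (hB : ∀ b', b' ≤ b → ‖∑ l ∈ Ioc a b', z l‖ ≤ B) : ‖∑ l ∈ Ioc a b, (w l : ℂ) * z l‖ ≤ 2 * w b * B := by
  have hB0 : 0 ≤ B := le_trans (norm_nonneg _) (hB a hab)
  have key : ∀ b', a ≤ b' → b' ≤ b → ‖∑ l ∈ Ioc a b', (w l : ℂ) * z l - (w b' : ℂ) * ∑ l ∈ Ioc a b', z l‖ ≤ (w b' - w a) * B := by
    intro b' hb'
    induction b', hb' using Nat.le_induction with
    | base => intro _; simp
    | succ c hc ih =>
      intro hcb
      have h1 := ih (by omega)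
      rw [sum_Ioc_succ_top hc, sum_Ioc_succ_top hc]
      have h2 : ∑ l ∈ Ioc a c, (w l : ℂ) * z l + (w (c + 1) : ℂ) * z (c + 1) - (w (c + 1) : ℂ) * (∑ l ∈ Ioc a c, z l + z (c + 1)) =
          (∑ l ∈ Ioc a c, (w l : ℂ) * z l - (w c : ℂ) * ∑ l ∈ Ioc a c, z l) - ((w (c + 1) - w c : ℝ) : ℂ) * ∑ l ∈ Ioc a c, z l := by
        push_cast; ring
      rw [h2]
      refine (norm_sub_le _ _).trans ?_
      rw [norm_mul, Complex.norm_real, Real.norm_of_nonneg (sub_nonneg.2 (hw (Nat.le_succ c)))]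
      have h3 : (w (c + 1) - w c) * ‖∑ l ∈ Ioc a c, z l‖ ≤ (w (c + 1) - w c) * B :=
        mul_le_mul_of_nonneg_left (hB c (by omega)) (sub_nonneg.2 (hw (Nat.le_succ c)))
      linarith
  have h1 := key b hab le_rfl
  have h2 := hB b le_rfl
  have h3 : ‖(w b : ℂ) * ∑ l ∈ Ioc a b, z l‖ ≤ w b * B := by
    rw [norm_mul, Complex.norm_real, Real.norm_of_nonneg (hw0 b)]
    exact mul_le_mul_of_nonneg_left h2 (hw0 b)
  have h4 : ∑ l ∈ Ioc a b, (w l : ℂ) * z l = (∑ l ∈ Ioc a b, (w l : ℂ) * z l - (w b : ℂ) * ∑ l ∈ Ioc a b, z l) + (w b : ℂ) * ∑ l ∈ Ioc a b, z l := by ring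
  rw [h4]
  refine (norm_add_le _ _).trans ?_
  have h5 := mul_nonneg (hw0 a) hB0
  nlinarith

/-- inner sum of type I -/
lemma inner_I {α : ℝ} (h0 : 0 < α) (h1 : α < 1) (κ : ℝ) (hκ : 0 < κ) (N N' m : ℕ) (hm : 1 ≤ m) (hmN : m ≤ N) (hN' : N' ≤ 2 * N)
    (hcond : 4 * κ * m ≤ (N : ℝ) ^ (1 - α)) (b : ℕ) (hb : b ≤ N' / m) :
    ‖∑ l ∈ Ioc (N / m) b, e (κ * ((m * l : ℕ) : ℝ) ^ α)‖ ≤ 40 / α * ((N : ℝ) ^ (1 - α) / κ) * (1 / m) := by
  have hm0 : (0 : ℝ) < m := by exact_mod_cast hm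
  have hN0 : (0 : ℝ) < N := by exact_mod_cast (by omega : 0 < N)
  set M := N / m with hM
  have hM1 : 1 ≤ M := Nat.div_pos hmN hm
  have hM0 : (0 : ℝ) < M := by exact_mod_cast hM1
  have hMle : (M : ℝ) ≤ N / m := Nat.cast_div_le
  have hMge : (N : ℝ) / m ≤ 2 * M := by
    rw [div_le_iff₀ hm0]
    have h2 : N < m * (M + 1) := by rw [hM]; exact Nat.lt_mul_div_succ N hm
    have h3 : N ≤ 2 * M * m := by nlinarith
    exact_mod_cast h3
  have e1 : ∀ l ∈ Ioc M b, e (κ * ((m * l : ℕ) : ℝ) ^ α) = e ((κ * (m : ℝ) ^ α) * (l : ℝ) ^ α) := by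
    intro l _
    congr 1
    push_cast
    rw [Real.mul_rpow (Nat.cast_nonneg _) (Nat.cast_nonneg _)]; ring
  rw [sum_congr rfl e1]
  have hmα : 0 < (m : ℝ) ^ α := Real.rpow_pos_of_pos hm0 _
  have hc : 0 < κ * (m : ℝ) ^ α := by positivity
  have hmsplit : (m : ℝ) ^ α * (m : ℝ) ^ (1 - α) = m := by
    rw [← Real.rpow_add hm0]; norm_num
  have hNsplit : (N : ℝ) ^ (1 - α) * (N : ℝ) ^ (α - 1) = 1 := by
    rw [← Real.rpow_add hN0]; norm_num
  have hkl : κ * (m : ℝ) ^ α * α * (M : ℝ) ^ (α - 1) ≤ 1 / 2 := by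
    have h2 : (M : ℝ) ^ (α - 1) ≤ 2 * ((N : ℝ) / m) ^ (α - 1) := by
      have h3 : (M : ℝ) ^ (α - 1) ≤ (N / m / 2 : ℝ) ^ (α - 1) := by
        apply rpow_anti' h1 (by positivity); linarith
      refine h3.trans ?_
      rw [Real.div_rpow (by positivity) (by norm_num), div_eq_mul_inv, mul_comm]
      apply mul_le_mul_of_nonneg_right _ (by positivity)
      rw [← Real.rpow_neg (by norm_num)]
      calc (2 : ℝ) ^ (-(α - 1)) ≤ 2 ^ (1 : ℝ) := Real.rpow_le_rpow_of_exponent_le (by norm_num) (by linarith)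
        _ = 2 := Real.rpow_one 2
    have h4 : ((N : ℝ) / m) ^ (α - 1) = (N : ℝ) ^ (α - 1) * (m : ℝ) ^ (1 - α) := by
      rw [Real.div_rpow hN0.le hm0.le, div_eq_mul_inv, ← Real.rpow_neg hm0.le]
      congr 2; ring
    have hN1 : 0 < (N : ℝ) ^ (α - 1) := Real.rpow_pos_of_pos hN0 _
    calc κ * (m : ℝ) ^ α * α * (M : ℝ) ^ (α - 1) ≤ κ * (m : ℝ) ^ α * α * (2 * ((N : ℝ) / m) ^ (α - 1)) :=
          mul_le_mul_of_nonneg_left h2 (by positivity)
      _ = 2 * α * (κ * ((m : ℝ) ^ α * (m : ℝ) ^ (1 - α))) * (N : ℝ) ^ (α - 1) := by rw [h4]; ring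
      _ = α * (2 * κ * m * (N : ℝ) ^ (α - 1)) := by rw [hmsplit]; ring
      _ ≤ 1 * (2 * κ * m * (N : ℝ) ^ (α - 1)) := mul_le_mul_of_nonneg_right h1.le (by positivity)
      _ ≤ 1 / 2 := by
          have h5 := mul_le_mul_of_nonneg_right hcond hN1.le
          rw [hNsplit] at h5
          linarith
  have h2 := kl_Ioc h0 h1 (κ * (m : ℝ) ^ α) hc M M b hM1 (Nat.le_succ _) (by
    have h3 : N' / m ≤ (2 * N) / m := Nat.div_le_div_right hN'
    have h4 : (2 * N) / m < 2 * (M + 1) := by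
      rw [Nat.div_lt_iff_lt_mul hm]
      have h5 : N < m * (M + 1) := by rw [hM]; exact Nat.lt_mul_div_succ N hm
      nlinarith
    omega) hkl
  refine h2.trans ?_
  have h3 : (M : ℝ) ^ (1 - α) ≤ ((N : ℝ) / m) ^ (1 - α) := Real.rpow_le_rpow hM0.le hMle (by linarith)
  have h4 : ((N : ℝ) / m) ^ (1 - α) / (κ * (m : ℝ) ^ α) = (N : ℝ) ^ (1 - α) / κ * (1 / m) := by
    rw [Real.div_rpow hN0.le hm0.le, div_div]
    have : (m : ℝ) ^ (1 - α) * (κ * (m : ℝ) ^ α) = κ * m := by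
      calc _ = κ * ((m : ℝ) ^ α * (m : ℝ) ^ (1 - α)) := by ring
        _ = _ := by rw [hmsplit]
    rw [this]; field_simp
  calc 40 / α * ((M : ℝ) ^ (1 - α) / (κ * (m : ℝ) ^ α)) ≤ 40 / α * (((N : ℝ) / m) ^ (1 - α) / (κ * (m : ℝ) ^ α)) := by
        apply mul_le_mul_of_nonneg_left _ (by positivity)
        exact div_le_div_of_nonneg_right h3 hc.le
    _ = _ := by rw [h4]; ring

/-- Vaughan's identity, summed -/
lemma vaughan_sum (U V N N' : ℕ) (hUN : U ≤ N) (E : ℕ → ℂ) :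
    ∑ n ∈ Ioc N N', ((ArithmeticFunction.vonMangoldt n : ℝ) : ℂ) * E n =
      ∑ m ∈ Icc 1 N', ∑ l ∈ Ioc (N / m) (N' / m), ((betaV V m : ℝ) : ℂ) * (((if U < l then ArithmeticFunction.vonMangoldt l else 0 : ℝ)) : ℂ) * E (m * l) +
      ∑ m ∈ Icc 1 N', ((mu1 V m : ℝ) : ℂ) * ∑ l ∈ Ioc (N / m) (N' / m), ((Real.log l : ℝ) : ℂ) * E (m * l) -
      ∑ m ∈ Icc 1 N', (((mu1 V * l1 U) m : ℝ) : ℂ) * ∑ l ∈ Ioc (N / m) (N' / m), E (m * l) := by
  have h1 : ∀ n ∈ Ioc N N', ((ArithmeticFunction.vonMangoldt n : ℝ) : ℂ) * E n =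
      (∑ i ∈ n.divisorsAntidiagonal, ((betaV V i.1 : ℝ) : ℂ) * (((if U < i.2 then ArithmeticFunction.vonMangoldt i.2 else 0 : ℝ)) : ℂ) * E (i.1 * i.2)) +
      (∑ i ∈ n.divisorsAntidiagonal, ((mu1 V i.1 : ℝ) : ℂ) * (((Real.log i.2 : ℝ) : ℂ) * E (i.1 * i.2))) -
      (∑ i ∈ n.divisorsAntidiagonal, (((mu1 V * l1 U) i.1 : ℝ) : ℂ) * E (i.1 * i.2)) := by
    intro n hn
    rw [mem_Ioc] at hn
    have hv := Pool.Agent.Helper112.TI.vaughan U V n
    have hl1 : l1 U n = 0 := by rw [l1_apply, if_neg (by omega)]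
    rw [hl1, zero_add] at hv
    have hE : ∀ i ∈ n.divisorsAntidiagonal, E (i.1 * i.2) = E n := by
      intro i hi
      rw [(Nat.mem_divisorsAntidiagonal.1 hi).1]
    have e1 : (∑ i ∈ n.divisorsAntidiagonal, ((betaV V i.1 : ℝ) : ℂ) * (((if U < i.2 then ArithmeticFunction.vonMangoldt i.2 else 0 : ℝ)) : ℂ) * E (i.1 * i.2)) =
        ((LamII U V n : ℝ) : ℂ) * E n := by
      unfold LamII
      push_cast
      rw [sum_mul]
      apply sum_congr rfl; intro i hi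
      rw [hE i hi]
    have e2 : (∑ i ∈ n.divisorsAntidiagonal, ((mu1 V i.1 : ℝ) : ℂ) * (((Real.log i.2 : ℝ) : ℂ) * E (i.1 * i.2))) =
        (((ArithmeticFunction.log * mu1 V) n : ℝ) : ℂ) * E n := by
      rw [mul_comm ArithmeticFunction.log (mu1 V), ArithmeticFunction.mul_apply, Complex.ofReal_sum, sum_mul]
      apply sum_congr rfl; intro i hi
      rw [hE i hi, ArithmeticFunction.log_apply, Complex.ofReal_mul]; ring
    have e3 : (∑ i ∈ n.divisorsAntidiagonal, (((mu1 V * l1 U) i.1 : ℝ) : ℂ) * E (i.1 * i.2)) =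
        (((((ArithmeticFunction.zeta : ArithmeticFunction ℕ) : ArithmeticFunction ℝ) * (mu1 V * l1 U)) n : ℝ) : ℂ) * E n := by
      rw [mul_comm _ (mu1 V * l1 U), ArithmeticFunction.mul_apply]
      push_cast
      rw [sum_mul]
      apply sum_congr rfl; intro i hi
      rw [hE i hi]
      have h2 : i.2 ≠ 0 := by
        have := Nat.mem_divisorsAntidiagonal.1 hi
        rintro h
        rw [h] at this
        simp at this
        omega
      have h3 : (((ArithmeticFunction.zeta : ArithmeticFunction ℕ) : ArithmeticFunction ℝ) i.2) = 1 := by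
        rw [ArithmeticFunction.natCoe_apply, ArithmeticFunction.zeta_apply, if_neg h2]; norm_num
      rw [h3]; push_cast; ring
    rw [e1, e2, e3]
    have h4 : ArithmeticFunction.vonMangoldt n = LamII U V n + (ArithmeticFunction.log * mu1 V) n -
      (((ArithmeticFunction.zeta : ArithmeticFunction ℕ) : ArithmeticFunction ℝ) * (mu1 V * l1 U)) n := by linarith
    rw [h4]
    push_cast; ring
  rw [sum_congr rfl h1, sum_sub_distrib, sum_add_distrib,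
    hyp N N' (fun a b => ((betaV V a : ℝ) : ℂ) * (((if U < b then ArithmeticFunction.vonMangoldt b else 0 : ℝ)) : ℂ) * E (a * b)),
    hyp N N' (fun a b => ((mu1 V a : ℝ) : ℂ) * (((Real.log b : ℝ) : ℂ) * E (a * b))),
    hyp N N' (fun a b => (((mu1 V * l1 U) a : ℝ) : ℂ) * E (a * b))]
  simp_rw [mul_sum]

lemma conv_abs_le (U V m : ℕ) (hm : 1 ≤ m) : |(mu1 V * l1 U) m| ≤ Real.log m := by
  rw [ArithmeticFunction.mul_apply]
  refine (abs_sum_le_sum_abs _ _).trans ?_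
  rw [← ArithmeticFunction.vonMangoldt_sum (n := m)]
  have hda := Nat.sum_divisorsAntidiagonal' (n := m) (fun _ i => ArithmeticFunction.vonMangoldt i)
  rw [← hda]
  apply sum_le_sum
  intro i _
  rw [abs_mul]
  have h1 : |mu1 V i.1| ≤ 1 := by
    rw [mu1_apply]
    split_ifs
    · exact_mod_cast ArithmeticFunction.abs_moebius_le_one
    · simp
  have h2 : |l1 U i.2| ≤ ArithmeticFunction.vonMangoldt i.2 := by
    rw [l1_apply]
    split_ifs
    · rw [abs_of_nonneg ArithmeticFunction.vonMangoldt_nonneg]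
    · rw [abs_zero]; exact ArithmeticFunction.vonMangoldt_nonneg
  calc |mu1 V i.1| * |l1 U i.2| ≤ 1 * |l1 U i.2| := mul_le_mul_of_nonneg_right h1 (abs_nonneg _)
    _ = |l1 U i.2| := one_mul _
    _ ≤ _ := h2

lemma conv_zero (U V m : ℕ) (hm : U * V < m) : (mu1 V * l1 U) m = 0 := by
  rw [ArithmeticFunction.mul_apply]
  apply sum_eq_zero
  intro i hi
  have h1 := (Nat.mem_divisorsAntidiagonal.1 hi).1
  rw [mu1_apply, l1_apply]
  by_cases h2 : i.1 ≤ V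
  · by_cases h3 : i.2 ≤ U
    · exfalso
      have : i.1 * i.2 ≤ V * U := Nat.mul_le_mul h2 h3
      rw [h1, mul_comm] at this
      omega
    · rw [if_neg h3, mul_zero]
  · rw [if_neg h2, zero_mul]

end Pool.Agent.H373R2.T3
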